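import Pool.Agent.Results.MP_4a0cc8_nt.ConductorOrderedAllLevels
import Pool.Agent.V11326.WO1

/-!
# Congruences at all large levels do not lower the conductor: ALL curves with full two-torsion whose conductors lie in
windows

Let `K` be a number field of degree `d`. We consider ALL elliptic curves `E` over `K` with full rational two-torsion, of
whatever height (all quadratic twists included), ordered by the part `N_E` of the norm of the conductor prime to two; there are
`X ^ (2 / 3 + o(1))` of them with `N_E ≤ X`. Let `0 < η < 1`. There is `ν > 0` such that for all sequences `v_n ≥ 1` with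
exponent of convergence at most `τ` (for example `v_n = 2 ^ n`, `τ = 0`) and all `θ < 1` there is a set `F` of real numbers of
Hausdorff dimension at most `(1 - ν + τ) / (1 - θ)`, of measure zero if `τ + θ < ν`, such that for all real `β` outside
`F`:

1. For all large `n` and ALL such `E`, of whatever height, with `|N_E ^ (2 / 3) - β v_n| ≤ v_n ^ θ`: for EVERY elliptic curve
   `E'` over `K` congruent to `E` modulo some `m > 121 ^ (8 d + 13)` the product of the norms of the primes (not above two)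
   of bad reduction of `E'` is at least `N_E ^ (1 - η)`; for `E'` having the same `p`-division field, `p ≥ 13` prime with
   `p ^ 2 > 8 d + 1`, this holds for the product over the primes of potentially multiplicative reduction.
2. For EVERY elliptic curve `E₀` over `K` all but finitely many of the curves `E`, of whatever height, with
   `|N_E ^ (2 / 3) - β v_n| ≤ v_n ^ θ` for some `n` are not congruent to `E₀` modulo any `m > 121 ^ (8 d + 13)`. The bound for
   `m` does not depend on `E₀`.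

The proof combines the starting result `ConductorOrderedAllLevels` with a covering argument.
-/

set_option autoImplicit false

namespace Pool.Agent.Results.MP_4a0cc8_nt.ConductorWindows

open NumberField IsDedekindDomain MeasureTheory
open Pool.Agent.Results.MP_4a0cc8_nt.ConductorOrderedAllLevels

/-- The exponent of convergence of the sequence `v` is at most `τ`: the sum of the `v_n ^ (-p)` converges for all
`p > τ`. -/
def ExpLe (v : ℕ → ℝ) (τ : ℝ) : Prop := ∀ p : ℝ, τ < p → Summable fun n => (v n) ^ (-p)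

/-- The isomorphism classes of the elliptic curves `E : y² = x³ + Ax + B` over `K` with full rational two-torsion, of whatever
height, with `|N_E ^ (2 / 3) - β v_n| ≤ v_n ^ θ` for some `n`, which are congruent to `y² = x³ + A₀x + B₀` modulo some
`m > 121 ^ (8 [K : ℚ] + 13)`. -/
def PartnersInWindows (K : Type) [Field K] [NumberField K] (A₀ B₀ : K) (v : ℕ → ℝ) (β θ : ℝ) : Set (IsoClass K) :=
  {q | ∃ A B : K, Quotient.mk'' (curve A B) = q ∧ 4 * A ^ 3 + 27 * B ^ 2 ≠ 0 ∧ FullTwo (curve A B) ∧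
    (∃ n : ℕ, |ConductorOrderedAllLevels.cond (curve A B) ^ (2 / 3 : ℝ) - β * v n| ≤ (v n) ^ θ) ∧
    ∃ m : ℕ, 121 ^ (8 * Module.finrank ℚ K + 13) < m ∧ Congruent m A B A₀ B₀}

section

variable {L : Type} [Field L] [NumberField L]

theorem good_smul (v : HeightOneSpectrum (𝓞 L)) (C : WeierstrassCurve.VariableChange L) (E : WeierstrassCurve L) :
    GoodAt v (C • E) ↔ GoodAt v E := by
  constructor
  · rintro ⟨C', h⟩
    refine ⟨C' * C, ?_⟩
    rw [mul_smul]
    exact h
  · rintro ⟨C', h⟩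
    refine ⟨C' * C⁻¹, ?_⟩
    rw [mul_smul, inv_smul_smul]
    exact h

theorem semi_smul (v : HeightOneSpectrum (𝓞 L)) (C : WeierstrassCurve.VariableChange L) (E : WeierstrassCurve L) :
    SemistableAt v (C • E) ↔ SemistableAt v E := by
  constructor
  · rintro ⟨C', h⟩
    refine ⟨C' * C, ?_⟩
    rw [mul_smul]
    exact h
  · rintro ⟨C', h⟩
    refine ⟨C' * C⁻¹, ?_⟩
    rw [mul_smul, inv_smul_smul]
    exact h

theorem cond_smul (C : WeierstrassCurve.VariableChange L) (E : WeierstrassCurve L) :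
    ConductorOrderedAllLevels.cond (C • E) = ConductorOrderedAllLevels.cond E := by
  unfold ConductorOrderedAllLevels.cond badProduct
  simp only [good_smul, semi_smul]

theorem cond_pos (E : WeierstrassCurve L) : 0 < ConductorOrderedAllLevels.cond E := by
  have h : ∀ v : HeightOneSpectrum (𝓞 L), (0 : ℝ) < (Ideal.absNorm v.asIdeal : ℝ) := fun v => by
    have h1 : Ideal.absNorm v.asIdeal ≠ 0 := fun h => v.ne_bot (Ideal.absNorm_eq_zero_iff.1 h)
    exact_mod_cast Nat.pos_of_ne_zero h1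
  unfold ConductorOrderedAllLevels.cond badProduct
  refine mul_pos ?_ ?_
  · exact finprod_mem_induction (fun x : ℝ => 0 < x) one_pos (fun x y hx hy => mul_pos hx hy) fun v _ => h v
  · exact finprod_mem_induction (fun x : ℝ => 0 < x) one_pos (fun x y hx hy => mul_pos hx hy) fun v _ => h v

theorem cond_out (E : WeierstrassCurve L) {q : IsoClass L} (h : Quotient.mk'' E = q) :
    ConductorOrderedAllLevels.cond (Quotient.out q) = ConductorOrderedAllLevels.cond E := by
  have h1 : (Quotient.mk'' (Quotient.out q) : IsoClass L) = Quotient.mk'' E := by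
    rw [h]
    exact Quotient.out_eq' q
  have h2 := Quotient.eq''.1 h1
  obtain ⟨C, hC⟩ := MulAction.orbitRel_apply.1 h2
  rw [← hC]
  exact cond_smul C E

theorem disc (A B : L) : (curve A B).Δ = -16 * (4 * A ^ 3 + 27 * B ^ 2) := by
  simp only [curve, WeierstrassCurve.Δ, WeierstrassCurve.b₂, WeierstrassCurve.b₄, WeierstrassCurve.b₆,
    WeierstrassCurve.b₈]
  ring

theorem disc_ne {A B : L} (h : 4 * A ^ 3 + 27 * B ^ 2 ≠ 0) : (curve A B).Δ ≠ 0 := by
  rw [disc]
  exact mul_ne_zero (neg_ne_zero.2 (by norm_num)) h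

theorem small_mono {A B : L} {Y Y' : ℝ} (hY : Y ≤ Y') (h : HasSmallCompanion A B Y) : HasSmallCompanion A B Y' := by
  obtain ⟨A', B', h0, h1⟩ := h
  rcases h1 with ⟨h2, h3⟩ | ⟨h2, h3⟩
  · exact ⟨A', B', h0, Or.inl ⟨lt_of_lt_of_le h2 hY, h3⟩⟩
  · exact ⟨A', B', h0, Or.inr ⟨lt_of_lt_of_le h2 hY, h3⟩⟩

end

/-- a power saving for all `X ≥ 1` -/
theorem count (K : Type) [Field K] [NumberField K] (η : ℝ) (hη : 0 < η) :
    ∃ ν C : ℝ, 0 < ν ∧ ∀ X : ℝ, 1 ≤ X → (Exceptional K η X).Finite ∧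
      ((Exceptional K η X).ncard : ℝ) ≤ C * X ^ (2 / 3 - ν) := by
  obtain ⟨h1, h2⟩ := ConductorOrderedAllLevels.result K
  obtain ⟨ν, X₀, hν, h2⟩ := h2 η hη
  obtain ⟨X₁, h1⟩ := h1 (ν / 2) (by positivity)
  obtain ⟨X₂, hX₂⟩ : ∃ X₂ : ℝ, X₂ = max (max X₀ X₁) 1 := ⟨_, rfl⟩
  have hsub : ∀ X : ℝ, Exceptional K η X ⊆ Curves K X := fun X q hq => by
    obtain ⟨A, B, h3, h4, h5, h6, -⟩ := hq
    exact ⟨curve A B, h3, disc_ne h4, h5, h6⟩
  have hfin2 : (Curves K X₂).Finite :=
    (h1 X₂ (by rw [hX₂]; exact (le_max_right _ _).trans (le_max_left _ _))).1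
  have hmin0 : 0 ≤ 2 / 3 - min (ν / 2) (2 / 3) := by linarith [min_le_right (ν / 2) (2 / 3)]
  refine ⟨min (ν / 2) (2 / 3), 1 + ((Curves K X₂).ncard : ℝ), lt_min (by positivity) (by norm_num), fun X hX => ?_⟩
  have hX0 : 0 < X := by linarith
  have hX1 : 1 ≤ X ^ (2 / 3 - min (ν / 2) (2 / 3)) := Real.one_le_rpow hX hmin0
  by_cases hXX : X₂ ≤ X
  · have h3 : X₀ ≤ X := ((le_max_left _ _).trans (le_max_left _ _)).trans (hX₂ ▸ hXX)
    have h4 : X₁ ≤ X := ((le_max_right _ _).trans (le_max_left _ _)).trans (hX₂ ▸ hXX)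
    obtain ⟨h5, -, h6⟩ := h1 X h4
    refine ⟨h5.subset (hsub X), ?_⟩
    calc ((Exceptional K η X).ncard : ℝ) ≤ X ^ (-ν) * (Curves K X).ncard := h2 X h3
      _ ≤ X ^ (-ν) * X ^ (2 / 3 + ν / 2) := mul_le_mul_of_nonneg_left h6 (Real.rpow_nonneg hX0.le _)
      _ = X ^ (2 / 3 - ν / 2) := by
          rw [← Real.rpow_add hX0]
          congr 1
          ring
      _ ≤ X ^ (2 / 3 - min (ν / 2) (2 / 3)) :=
          Real.rpow_le_rpow_of_exponent_le hX (by linarith [min_le_left (ν / 2) (2 / 3)])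
      _ ≤ (1 + ((Curves K X₂).ncard : ℝ)) * X ^ (2 / 3 - min (ν / 2) (2 / 3)) := by
          have : (0 : ℝ) ≤ ((Curves K X₂).ncard : ℝ) := Nat.cast_nonneg _
          nlinarith
  · have hmono : Exceptional K η X ⊆ Curves K X₂ := fun q hq => by
      obtain ⟨E, h3, h4, h5, h6⟩ := hsub X hq
      exact ⟨E, h3, h4, h5, h6.trans (not_le.1 hXX).le⟩
    refine ⟨hfin2.subset hmono, ?_⟩
    have h3 : ((Exceptional K η X).ncard : ℝ) ≤ ((Curves K X₂).ncard : ℝ) := by
      exact_mod_cast Set.ncard_le_ncard hmono hfin2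
    have h4 : (0 : ℝ) ≤ ((Curves K X₂).ncard : ℝ) := Nat.cast_nonneg _
    nlinarith

theorem result (K : Type) [Field K] [NumberField K] (η : ℝ) (hη : 0 < η) (hη1 : η < 1) :
    ∃ ν : ℝ, 0 < ν ∧ ν ≤ 1 ∧ ∀ (v : ℕ → ℝ) (τ θ : ℝ), (∀ n, 1 ≤ v n) → 0 ≤ τ → ExpLe v τ → θ < 1 →
      ∃ F : Set ℝ, dimH F ≤ ENNReal.ofReal ((1 - ν + τ) / (1 - θ)) ∧ (τ + θ < ν → volume F = 0) ∧
        ∀ β : ℝ, β ∉ F →
          (∃ n₀ : ℕ, ∀ n : ℕ, n₀ ≤ n → ∀ A B : K, 4 * A ^ 3 + 27 * B ^ 2 ≠ 0 → FullTwo (curve A B) →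
            |ConductorOrderedAllLevels.cond (curve A B) ^ (2 / 3 : ℝ) - β * v n| ≤ (v n) ^ θ →
              ¬ HasSmallCompanion A B (ConductorOrderedAllLevels.cond (curve A B) ^ (1 - η))) ∧
          (∀ A₀ B₀ : K, 4 * A₀ ^ 3 + 27 * B₀ ^ 2 ≠ 0 → (PartnersInWindows K A₀ B₀ v β θ).Finite) := by
  obtain ⟨ν, C, hν, hC⟩ := count K η hη
  obtain ⟨h1, -⟩ := ConductorOrderedAllLevels.result K
  obtain ⟨X₁, h1⟩ := h1 1 one_pos
  have hcur : ∀ X : ℝ, (Curves K X).Finite := by
    intro X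
    refine (h1 (max X X₁) (le_max_right _ _)).1.subset fun q hq => ?_
    obtain ⟨E, h3, h4, h5, h6⟩ := hq
    exact ⟨E, h3, h4, h5, h6.trans (le_max_left _ _)⟩
  have hN : ∀ (E : WeierstrassCurve K) (q : IsoClass K), Quotient.mk'' E = q →
      Real.log (ConductorOrderedAllLevels.cond (Quotient.out q)) = Real.log (ConductorOrderedAllLevels.cond E) :=
    fun E q h => by rw [cond_out E h]
  obtain ⟨ν', hν', hν1, hmain⟩ := Pool.Agent.V11326.WO1.single (r := 2 / 3) (by norm_num)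
    {q : IsoClass K | ∃ A B : K, Quotient.mk'' (curve A B) = q ∧ 4 * A ^ 3 + 27 * B ^ 2 ≠ 0 ∧ FullTwo (curve A B) ∧
      HasSmallCompanion A B (ConductorOrderedAllLevels.cond (curve A B) ^ (1 - η))}
    (fun q : IsoClass K => ∃ E : WeierstrassCurve K, Quotient.mk'' E = q ∧ E.Δ ≠ 0 ∧ FullTwo E)
    (fun q => Real.log (ConductorOrderedAllLevels.cond (Quotient.out q))) hν (C := C)
    (fun X hX => by
      refine (hcur X).subset ?_
      rintro q ⟨⟨E, h3, h4, h5⟩, h6⟩
      refine ⟨E, h3, h4, h5, ?_⟩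
      rw [hN E q h3] at h6
      exact (Real.log_le_log_iff (cond_pos E) (by linarith)).1 h6)
    (fun X hX => by
      obtain ⟨h3, h4⟩ := hC X hX
      refine le_trans ?_ h4
      refine Nat.cast_le.2 (Set.ncard_le_ncard ?_ h3)
      rintro q ⟨⟨A, B, h5, h6, h7, h8⟩, -, h9⟩
      rw [hN (curve A B) q h5] at h9
      have h10 := (Real.log_le_log_iff (cond_pos (curve A B)) (by linarith)).1 h9
      exact ⟨A, B, h5, h6, h7, h10,
        small_mono (Real.rpow_le_rpow (cond_pos (curve A B)).le h10 (by linarith)) h8⟩)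
  refine ⟨ν', hν', hν1, fun v τ θ hv hτ hvτ hθ => ?_⟩
  obtain ⟨F, hF, hF0, h⟩ := hmain v τ θ hv hτ hvτ hθ
  refine ⟨F, hF, hF0, fun β hβ => ?_⟩
  obtain ⟨n₀, hn⟩ := h β hβ
  have hgood : ∀ n : ℕ, n₀ ≤ n → ∀ A B : K, 4 * A ^ 3 + 27 * B ^ 2 ≠ 0 → FullTwo (curve A B) →
      |ConductorOrderedAllLevels.cond (curve A B) ^ (2 / 3 : ℝ) - β * v n| ≤ (v n) ^ θ →
        ¬ HasSmallCompanion A B (ConductorOrderedAllLevels.cond (curve A B) ^ (1 - η)) := by
    intro n hnn A B h3 h4 h5 h6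
    refine hn n hnn (Quotient.mk'' (curve A B)) ⟨curve A B, rfl, disc_ne h3, h4⟩ ?_ ⟨A, B, rfl, h3, h4, h6⟩
    rw [hN (curve A B) _ rfl, mul_comm, ← Real.rpow_def_of_pos (cond_pos (curve A B))]
    exact h5
  refine ⟨⟨n₀, hgood⟩, fun A₀ B₀ hD₀ => ?_⟩
  obtain ⟨W, hW⟩ : ∃ W : ℝ, W = ∑ n ∈ Finset.range n₀, (|β| * v n + (v n) ^ θ) := ⟨_, rfl⟩
  have hterm : ∀ n, 0 ≤ |β| * v n + (v n) ^ θ := fun n => by
    have hn0 : 0 ≤ v n := by linarith [hv n]
    positivity
  refine (hcur (max ((max (badProduct (curve A₀ B₀)) 0) ^ (1 / (1 - η))) (W ^ (3 / 2 : ℝ)))).subset ?_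
  rintro q ⟨A, B, h3, h4, h5, ⟨n, h6⟩, m, h7, h8⟩
  refine ⟨curve A B, h3, disc_ne h4, h5, ?_⟩
  have hE := cond_pos (curve A B)
  have hη' : 0 < 1 - η := by linarith
  by_cases hnn : n₀ ≤ n
  · refine le_trans ?_ (le_max_left _ _)
    have h9 : ConductorOrderedAllLevels.cond (curve A B) ^ (1 - η) ≤ badProduct (curve A₀ B₀) := by
      by_contra h10
      exact hgood n hnn A B h4 h5 h6 ⟨A₀, B₀, hD₀, Or.inl ⟨not_le.1 h10, m, h7, h8⟩⟩
    calc ConductorOrderedAllLevels.cond (curve A B)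
        = (ConductorOrderedAllLevels.cond (curve A B) ^ (1 - η)) ^ (1 / (1 - η)) := by
          rw [← Real.rpow_mul hE.le, mul_one_div_cancel hη'.ne', Real.rpow_one]
      _ ≤ (max (badProduct (curve A₀ B₀)) 0) ^ (1 / (1 - η)) :=
          Real.rpow_le_rpow (Real.rpow_nonneg hE.le _) (h9.trans (le_max_left _ _)) (by positivity)
  · refine le_trans ?_ (le_max_right _ _)
    have h9 : ConductorOrderedAllLevels.cond (curve A B) ^ (2 / 3 : ℝ) ≤ W := by
      have h10 := (abs_le.1 h6).2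
      have h11 : β * v n ≤ |β| * v n := mul_le_mul_of_nonneg_right (le_abs_self β) (by linarith [hv n])
      have h12 : |β| * v n + (v n) ^ θ ≤ W := by
        rw [hW]
        exact Finset.single_le_sum (f := fun n => |β| * v n + (v n) ^ θ) (fun n _ => hterm n)
          (Finset.mem_range.2 (not_le.1 hnn))
      linarith
    calc ConductorOrderedAllLevels.cond (curve A B)
        = (ConductorOrderedAllLevels.cond (curve A B) ^ (2 / 3 : ℝ)) ^ (3 / 2 : ℝ) := by
          rw [← Real.rpow_mul hE.le]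
          norm_num
      _ ≤ W ^ (3 / 2 : ℝ) := Real.rpow_le_rpow (Real.rpow_nonneg hE.le _) h9 (by norm_num)

end Pool.Agent.Results.MP_4a0cc8_nt.ConductorWindows
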