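import Pool.Agent.Results.MP_4a0cc8_nt.PartnerWindows
import Pool.Agent.Results.MP_4a0cc8_nt.AllFieldsCongruences
import Pool.Agent.H107.MetricFam

/-!
# Congruences at all large levels are finite near every point outside a set of dimension zero

Let `K` be a number field and `φ` a map of `K` to a metric space (for instance an embedding in `ℝ`, `ℂ` or a `p`-adic field).
For all points `z` outside a set of Hausdorff dimension ZERO and every `σ > 0` there is `n₀` such that for EVERY elliptic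
curve `E₀` over `K` only finitely many elliptic curves `E` over `K`, up to isomorphism over `K`, with
`dist (φ (j(E))) z ≤ H(j(E)) ^ (-σ)` satisfy `E[n] ≅ E₀[n]` for some integer `n ≥ n₀`. One set of dimension zero works for all
number fields in `ℂ`. (By Faltings' theorem each of these finitely many curves which is not isogenous to `E₀` is congruent to
`E₀` modulo only finitely many `n`, so the question has a positive answer for the curves `E` with invariant near `z`.)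
For small `σ` almost all curves, in the sense of exponents, are near `z` in this sense.

If only the primes `p ≥ N ≥ 13` are considered, with the same `n₀ = N` for all `z`, the exceptional set has dimension at most
`(1 + 1 / N) / σ`.
-/

set_option autoImplicit false

open Filter Topology NumberField MeasureTheory
open scoped ENNReal NNReal

namespace Pool.Agent.Results.MP_4a0cc8_nt.NearEveryPoint

open FewPartnersAllLevels (Congruent jInvariant Isomorphic)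
open PartnerWindows (Partners)
open AllFieldsCongruences (Related)

/-- exceptional sets of dimension zero, for countably many families at once -/
theorem dim_zero_family {P M J : Type*} [MetricSpace M] [Countable J] (φ : P → M) (h : P → ℝ) (h1 : ∀ t, 1 ≤ h t)
    (S : ℕ → J → Set P)
    (hC : ∀ ε : ℝ, 0 < ε → ∃ R : ℕ, ∀ j : J, ∃ C : ℝ, ∀ X : ℝ, 1 ≤ X →
      {t | t ∈ S R j ∧ h t ≤ X}.Finite ∧ ({t | t ∈ S R j ∧ h t ≤ X}.ncard : ℝ) ≤ C * X ^ ε) :
    ∃ E : Set M, dimH E = 0 ∧ ∀ z ∉ E, ∀ σ : ℝ, 0 < σ → ∃ R : ℕ, ∀ j : J,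
      {t | t ∈ S R j ∧ dist (φ t) z ≤ (h t) ^ (-σ)}.Finite := by
  set B : ℕ → ℕ → Set M := fun k R =>
    {z : M | ∃ j : J, {t | t ∈ S R j ∧ dist (φ t) z ≤ (h t) ^ (-(1 / ((k : ℝ) + 1)))}.Infinite} with hB
  refine ⟨⋃ k, ⋂ R, B k R, ?_, fun z hz σ hσ => ?_⟩
  · rw [dimH_iUnion]
    refine le_antisymm (iSup_le fun k => ?_) bot_le
    have hk : (0 : ℝ) < 1 / ((k : ℝ) + 1) := by positivity
    have main : ∀ ε : ℝ, 0 < ε → dimH (⋂ R, B k R) ≤ ENNReal.ofReal (ε / (1 / ((k : ℝ) + 1))) := by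
      intro ε hε
      obtain ⟨R, hR⟩ := hC ε hε
      obtain ⟨E, g1, g2⟩ := Pool.Agent.H107.ME.dim_family φ h h1 hε.le hk (fun j : J => S R j) (fun j δ hδ => by
        obtain ⟨C, hC'⟩ := hR j
        refine ⟨C, fun X hX => ⟨(hC' X hX).1, (hC' X hX).2.trans ?_⟩⟩
        have hC0 : 0 ≤ C := by
          have h2 := (hC' 1 le_rfl).2
          rw [Real.one_rpow, mul_one] at h2
          exact (Nat.cast_nonneg _).trans h2
        exact mul_le_mul_of_nonneg_left (Real.rpow_le_rpow_of_exponent_le hX (by linarith)) hC0)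
      refine (dimH_mono (?_ : (⋂ R, B k R) ⊆ E)).trans g1
      intro z hz
      by_contra hzE
      obtain ⟨j, hj⟩ : z ∈ B k R := Set.mem_iInter.1 hz R
      exact hj (g2 z hzE j)
    have hlim : Tendsto (fun m : ℕ => ENNReal.ofReal ((1 / ((m : ℝ) + 1)) / (1 / ((k : ℝ) + 1)))) atTop
        (𝓝 (ENNReal.ofReal (0 / (1 / ((k : ℝ) + 1))))) :=
      ENNReal.tendsto_ofReal (tendsto_one_div_add_atTop_nhds_zero_nat.div_const _)
    rw [zero_div, ENNReal.ofReal_zero] at hlim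
    exact ge_of_tendsto' hlim fun m => main _ (by positivity)
  · obtain ⟨k, hk⟩ := exists_nat_one_div_lt hσ
    rw [Set.mem_iUnion, not_exists] at hz
    have hzj := hz k
    rw [Set.mem_iInter, not_forall] at hzj
    obtain ⟨R, hR⟩ := hzj
    refine ⟨R, fun j => ?_⟩
    have h3 : {t | t ∈ S R j ∧ dist (φ t) z ≤ (h t) ^ (-(1 / ((k : ℝ) + 1)))}.Finite := by
      by_contra hcon
      exact hR ⟨j, hcon⟩
    refine h3.subset ?_
    rintro t ⟨g1, g2⟩
    exact ⟨g1, g2.trans (Real.rpow_le_rpow_of_exponent_le (h1 t) (by linarith))⟩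

/-- the property of `z` of part (1) -/
def Good {K : Type} [Field K] [NumberField K] {M : Type} [MetricSpace M] (φ : K → M) (z : M) : Prop :=
  ∀ σ : ℝ, 0 < σ → ∃ n₀ : ℕ, ∀ A₀ B₀ : 𝓞 K, 4 * A₀ ^ 3 + 27 * B₀ ^ 2 ≠ 0 →
    ∃ F : Finset (K × K), ∀ A B : K, 4 * A ^ 3 + 27 * B ^ 2 ≠ 0 →
      dist (φ (jInvariant A B)) z ≤ (Height.mulHeight₁ (jInvariant A B)) ^ (-σ) →
      ∀ n : ℕ, n₀ ≤ n → Congruent n A B (A₀ : K) (B₀ : K) → ∃ e ∈ F, Isomorphic e.1 e.2 A B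

/-- finitely many invariants give finitely many curves -/
theorem curves_finite (d : ℕ) (ε : ℝ) (hε : 0 < ε) : ∃ n₀ : ℕ, ∀ (K : Type) [Field K] [NumberField K],
    Module.finrank ℚ K = d → ∀ A₀ B₀ : 𝓞 K, 4 * A₀ ^ 3 + 27 * B₀ ^ 2 ≠ 0 → ∀ J : Set K, J.Finite →
      ∃ F : Finset (K × K), ∀ A B : K, 4 * A ^ 3 + 27 * B ^ 2 ≠ 0 → jInvariant A B ∈ J →
        ∀ n : ℕ, n₀ ≤ n → Congruent n A B (A₀ : K) (B₀ : K) → ∃ e ∈ F, Isomorphic e.1 e.2 A B := by
  classical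
  obtain ⟨n₀, h⟩ := FewPartnersAllLevels.result d ε hε
  refine ⟨n₀, fun K _ _ hK A₀ B₀ h0 J hJ => ?_⟩
  obtain ⟨C, κ, h'⟩ := h K hK
  obtain ⟨X0, hX0⟩ := (hJ.image (fun x : K => Height.mulHeight₁ x)).bddAbove
  set X : ℝ := max X0 1 with hX
  have h1 := h' A₀ B₀ h0 X (le_max_right _ _)
  -- a family of maximal cardinality
  set Q : Finset (K × K) → Prop := fun 𝓔 =>
    (∀ e ∈ 𝓔, ∀ e' ∈ 𝓔, Isomorphic e.1 e.2 e'.1 e'.2 → e = e') ∧
    (∀ e ∈ 𝓔, 4 * e.1 ^ 3 + 27 * e.2 ^ 2 ≠ 0 ∧ jInvariant e.1 e.2 ∈ J ∧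
      ∃ n : ℕ, n₀ ≤ n ∧ Congruent n e.1 e.2 (A₀ : K) (B₀ : K)) with hQ
  set m : ℕ := ⌊C * |((Algebra.norm ℤ (4 * A₀ ^ 3 + 27 * B₀ ^ 2) : ℤ) : ℝ)| ^ κ * X ^ ε⌋₊ with hm
  have hbd : ∀ 𝓔 : Finset (K × K), Q 𝓔 → 𝓔.card ≤ m := by
    intro 𝓔 h𝓔
    apply Nat.le_floor
    refine h1 𝓔 h𝓔.1 fun e he => ?_
    obtain ⟨h2, h3, h4⟩ := h𝓔.2 e he
    exact ⟨h2, (hX0 ⟨_, h3, rfl⟩).trans (le_max_left _ _), h4⟩
  obtain ⟨𝓔, h𝓔, hmax⟩ : ∃ 𝓔 : Finset (K × K), Q 𝓔 ∧ ∀ 𝓔' : Finset (K × K), Q 𝓔' → 𝓔'.card ≤ 𝓔.card := by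
    have hne : ∃ k, ∃ 𝓔 : Finset (K × K), Q 𝓔 ∧ 𝓔.card = k := ⟨0, ∅, ⟨by simp, by simp⟩, rfl⟩
    have hfin : {k | ∃ 𝓔 : Finset (K × K), Q 𝓔 ∧ 𝓔.card = k}.Finite := by
      refine (Set.finite_Iic m).subset ?_
      rintro k ⟨𝓔, h𝓔, rfl⟩
      exact hbd 𝓔 h𝓔
    obtain ⟨k, ⟨𝓔, h𝓔, hk⟩, hk'⟩ := hfin.exists_maximal hne
    refine ⟨𝓔, h𝓔, fun 𝓔' h𝓔' => ?_⟩
    rcases le_total 𝓔'.card k with h | h
    · rw [hk]
      exact h
    · rw [hk]
      exact hk' ⟨𝓔', h𝓔', rfl⟩ h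
  refine ⟨𝓔, fun A B hAB hj n hn hcon => ?_⟩
  by_contra hno
  push Not at hno
  have hrefl : ∀ e : K × K, Isomorphic e.1 e.2 e.1 e.2 := fun e => ⟨1, one_ne_zero, by ring, by ring⟩
  have hsymm : ∀ a b c e : K, Isomorphic a b c e → Isomorphic c e a b := by
    rintro a b c e ⟨t, ht, rfl, rfl⟩
    refine ⟨t⁻¹, inv_ne_zero ht, ?_, ?_⟩
    · field_simp
    · field_simp
  have hnot : (A, B) ∉ 𝓔 := fun hmem => hno _ hmem (hrefl (A, B))
  have hins : Q (insert (A, B) 𝓔) := by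
    refine ⟨?_, ?_⟩
    · intro e he e' he' hi
      rw [Finset.mem_insert] at he he'
      rcases he with rfl | he
      · rcases he' with rfl | he'
        · rfl
        · exact absurd (hsymm _ _ _ _ hi) (hno _ he')
      · rcases he' with rfl | he'
        · exact absurd hi (hno _ he)
        · exact h𝓔.1 e he e' he' hi
    · intro e he
      rw [Finset.mem_insert] at he
      rcases he with rfl | he
      · exact ⟨hAB, hj, n, hn, hcon⟩
      · exact h𝓔.2 e he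
  have h5 := hmax _ hins
  rw [Finset.card_insert_of_notMem hnot] at h5
  omega

/-- part (1) -/
theorem part_one (K : Type) [Field K] [NumberField K] (M : Type) [MetricSpace M] (φ : K → M) :
    ∃ E : Set M, dimH E = 0 ∧ ∀ z ∉ E, Good φ z := by
  have hcnt : Countable (𝓞 K) :=
    haveI : Countable K := (Module.finBasis ℚ K).equivFun.injective.countable
    (RingOfIntegers.coe_injective (K := K)).countable
  obtain ⟨E, hE, h⟩ := dim_zero_family (J := {e : 𝓞 K × 𝓞 K // 4 * e.1 ^ 3 + 27 * e.2 ^ 2 ≠ 0}) φ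
    (fun j : K => Height.mulHeight₁ j) (fun j => Height.one_le_mulHeight₁ j)
    (fun n₀ e => Partners n₀ (e.1.1 : K) (e.1.2 : K)) (fun ε hε => by
      obtain ⟨n₀, h⟩ := PartnerWindows.partners_count (Module.finrank ℚ K) ε hε
      refine ⟨n₀, fun e => ?_⟩
      obtain ⟨C, -, h'⟩ := h K rfl e.1.1 e.1.2 e.2
      exact ⟨C, h'⟩)
  refine ⟨E, hE, fun z hz σ hσ => ?_⟩
  obtain ⟨R, hR⟩ := h z hz σ hσ
  obtain ⟨n₁, hn₁⟩ := curves_finite (Module.finrank ℚ K) 1 one_pos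
  refine ⟨max R n₁, fun A₀ B₀ h0 => ?_⟩
  obtain ⟨F, hF⟩ := hn₁ K rfl A₀ B₀ h0 _ (hR ⟨(A₀, B₀), h0⟩)
  refine ⟨F, fun A B hAB hd n hn hcon => ?_⟩
  exact hF A B hAB ⟨⟨A, B, hAB, rfl, n, (le_max_left _ _).trans hn, hcon⟩, hd⟩ n ((le_max_right _ _).trans hn) hcon

/-- there are countably many number fields in a field of characteristic zero -/
theorem countable_fields (F : Type) [Field F] [CharZero F] :
    {K : IntermediateField ℚ F | FiniteDimensional ℚ K}.Countable := by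
  classical
  have hA : {x : F | IsAlgebraic ℚ x}.Countable := Algebraic.countable ℚ F
  have hF : {s : Set F | s.Finite ∧ s ⊆ {x : F | IsAlgebraic ℚ x}}.Countable := Set.countable_ofPred_finite_subset hA
  refine (hF.image fun s => IntermediateField.adjoin ℚ s).mono ?_
  intro K hK
  have hK' : FiniteDimensional ℚ K := hK
  obtain ⟨s, hs⟩ : ∃ s : Finset F, IntermediateField.adjoin ℚ (s : Set F) = K := by
    obtain ⟨s, hs⟩ := IntermediateField.essFiniteType_iff.1 (inferInstance : Algebra.EssFiniteType ℚ K)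
    exact ⟨s, hs⟩
  refine ⟨s, ⟨s.finite_toSet, fun x hx => ?_⟩, hs⟩
  have hxK : x ∈ K := by
    rw [← hs]
    exact IntermediateField.subset_adjoin _ _ hx
  have h1 : IsAlgebraic ℚ (⟨x, hxK⟩ : K) := Algebra.IsAlgebraic.isAlgebraic _
  exact h1.algebraMap (A := F)

/-- part (2) -/
theorem part_two : ∃ E : Set ℂ, dimH E = 0 ∧ ∀ z ∉ E, ∀ (K : IntermediateField ℚ ℂ) [NumberField K],
    Good (fun j : K => (j : ℂ)) z := by
  classical
  have hc : Countable {K : IntermediateField ℚ ℂ | FiniteDimensional ℚ K} := (countable_fields ℂ).to_subtype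
  have h1 : ∀ K : {K : IntermediateField ℚ ℂ | FiniteDimensional ℚ K}, ∃ E : Set ℂ, dimH E = 0 ∧ ∀ z ∉ E,
      ∀ [NumberField K.1], Good (fun j : K.1 => (j : ℂ)) z := by
    intro K
    have hL' : FiniteDimensional ℚ K.1 := K.2
    have hNF : NumberField K.1 := ⟨⟩
    obtain ⟨E, hE, h⟩ := part_one K.1 ℂ (fun j : K.1 => (j : ℂ))
    exact ⟨E, hE, fun z hz => h z hz⟩
  choose E hE h using h1
  refine ⟨⋃ K, E K, ?_, fun z hz K hK => ?_⟩
  · rw [dimH_iUnion]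
    exact le_antisymm (iSup_le fun K => (hE K).le) bot_le
  · rw [Set.mem_iUnion, not_exists] at hz
    exact h ⟨K, (inferInstance : FiniteDimensional ℚ K)⟩ z (hz _)

/-- the count of the starting file in the relative height -/
theorem related_count {N : ℕ} (hN : 13 ≤ N) {ε : ℝ} (hε : 0 < ε) (K : Type) [Field K] [NumberField K] (j₀ : K) :
    ∃ C : ℝ, ∀ X : ℝ, 1 ≤ X → {j | Related N j₀ j ∧ Height.mulHeight₁ j ≤ X}.Finite ∧
      ({j | Related N j₀ j ∧ Height.mulHeight₁ j ≤ X}.ncard : ℝ) ≤ C * X ^ (1 + 1 / (N : ℝ) + ε) := by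
  have hn : (0 : ℝ) < Module.finrank ℚ K := AllFieldsCongruences.n_pos (K := K)
  obtain ⟨C, hC, h⟩ := AllFieldsCongruences.result.1 N ε hN hε
  refine ⟨(C * AllFieldsCongruences.absHeight j₀ ^ ε) ^ Module.finrank ℚ K, fun X hX => ?_⟩
  have hX0 : 0 < X := by linarith
  have hB : 1 ≤ X ^ (1 / (Module.finrank ℚ K : ℝ)) := Real.one_le_rpow hX (by positivity)
  obtain ⟨hfin, hle⟩ := h K j₀ _ hB
  have hsub : {j | Related N j₀ j ∧ Height.mulHeight₁ j ≤ X} ⊆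
      AllFieldsCongruences.Partners N j₀ (X ^ (1 / (Module.finrank ℚ K : ℝ))) := by
    rintro j ⟨h1, h2⟩
    refine ⟨?_, h1⟩
    show Height.logHeight₁ j ≤ _
    rw [Height.logHeight₁_eq_log_mulHeight₁, Real.log_rpow hX0]
    have h3 := Real.log_le_log (Height.mulHeight₁_pos j) h2
    refine h3.trans (le_of_eq ?_)
    field_simp
  have hfP : (AllFieldsCongruences.Partners N j₀ (X ^ (1 / (Module.finrank ℚ K : ℝ)))).Finite :=
    hfin.subset fun x hx => hx.1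
  refine ⟨hfP.subset hsub, ?_⟩
  calc (({j | Related N j₀ j ∧ Height.mulHeight₁ j ≤ X}.ncard : ℕ) : ℝ)
      ≤ ((AllFieldsCongruences.Partners N j₀ (X ^ (1 / (Module.finrank ℚ K : ℝ)))).ncard : ℝ) := by
        exact_mod_cast Set.ncard_le_ncard hsub hfP
    _ ≤ _ := hle
    _ = (C * AllFieldsCongruences.absHeight j₀ ^ ε) ^ Module.finrank ℚ K * X ^ (1 + 1 / (N : ℝ) + ε) := by
        have e1 : ((X ^ (1 / (Module.finrank ℚ K : ℝ))) ^ (1 + 1 / (N : ℝ) + ε)) ^ Module.finrank ℚ K =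
            X ^ (1 + 1 / (N : ℝ) + ε) := by
          rw [← Real.rpow_natCast, ← Real.rpow_mul hX0.le, ← Real.rpow_mul hX0.le]
          congr 1
          field_simp
        rw [mul_pow, mul_pow, e1, mul_pow]
        ring

/-- part (3) -/
theorem part_three (N : ℕ) (hN : 13 ≤ N) (K : Type) [Field K] [NumberField K] (M : Type) [MetricSpace M]
    (φ : K → M) (σ : ℝ) (hσ : 0 < σ) :
    ∃ E : Set M, dimH E ≤ ENNReal.ofReal ((1 + 1 / (N : ℝ)) / σ) ∧ ∀ z ∉ E, ∀ j₀ : K,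
      {j : K | Related N j₀ j ∧ dist (φ j) z ≤ (Height.mulHeight₁ j) ^ (-σ)}.Finite := by
  have hcnt : Countable K := (Module.finBasis ℚ K).equivFun.injective.countable
  exact Pool.Agent.H107.ME.dim_family φ (fun j : K => Height.mulHeight₁ j) (fun j => Height.one_le_mulHeight₁ j)
    (s := 1 + 1 / (N : ℝ)) (by positivity) hσ (fun j₀ : K => {j | Related N j₀ j})
    (fun j₀ ε hε => related_count hN hε K j₀)

/-- part (4) -/
theorem part_four : ∀ᵐ z : ℝ, ∀ (K : IntermediateField ℚ ℝ) [NumberField K] (N : ℕ) (σ : ℝ), 13 ≤ N →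
    1 + 1 / (N : ℝ) < σ → ∀ j₀ : K,
      {j : K | Related N j₀ j ∧ |(j : ℝ) - z| ≤ (Height.mulHeight₁ j) ^ (-σ)}.Finite := by
  have h5 : ∀ᵐ z : ℝ, ∀ K ∈ {K : IntermediateField ℚ ℝ | FiniteDimensional ℚ K}, ∀ [NumberField K] (N : ℕ) (σ : ℝ),
      13 ≤ N → 1 + 1 / (N : ℝ) < σ → ∀ j₀ : K,
      {j : K | Related N j₀ j ∧ |(j : ℝ) - z| ≤ (Height.mulHeight₁ j) ^ (-σ)}.Finite := by
    rw [ae_ball_iff (countable_fields ℝ)]
    intro K hK
    have hK' : FiniteDimensional ℚ K := hK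
    have hNF : NumberField K := ⟨⟩
    have hcnt : Countable K := (Module.finBasis ℚ K).equivFun.injective.countable
    have h6 : ∀ᵐ z : ℝ, ∀ N : ℕ, 13 ≤ N → ∀ σ : ℝ, 1 + 1 / (N : ℝ) < σ → ∀ j₀ : K,
        {j : K | Related N j₀ j ∧ |(j : ℝ) - z| ≤ (Height.mulHeight₁ j) ^ (-σ)}.Finite := by
      rw [ae_all_iff]
      intro N
      by_cases hN : 13 ≤ N
      · have h7 := Pool.Agent.H107.ME.ae_family (fun j : K => (j : ℝ)) (fun j : K => Height.mulHeight₁ j)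
          (fun j => Height.one_le_mulHeight₁ j) (s := 1 + 1 / (N : ℝ)) (by positivity)
          (fun j₀ : K => {j | Related N j₀ j}) (fun j₀ ε hε => related_count hN hε K j₀)
        filter_upwards [h7] with z hz _ σ hσ j₀
        exact hz σ hσ j₀
      · exact Eventually.of_forall fun z h => absurd h hN
    filter_upwards [h6] with z hz _ N σ hN hσ j₀
    exact hz N hN σ hσ j₀
  filter_upwards [h5] with z hz K hK N σ hN hσ j₀
  exact hz K (inferInstance : FiniteDimensional ℚ K) N σ hN hσ j₀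

/-- (1) Let `K` be a number field and `φ` a map of `K` to a metric space `M`. There is a set `E ⊆ M` of Hausdorff dimension
zero such that for all `z ∈ M` outside `E` and all `σ > 0` there is `n₀` such that for EVERY elliptic curve
`E₀ : y² = x³ + A₀x + B₀`, `A₀`, `B₀` integral over `K`, only finitely many elliptic curves `E : y² = x³ + Ax + B` over `K`,
up to isomorphism over `K`, with `dist (φ (j(E))) z ≤ H(j(E)) ^ (-σ)` satisfy `E[n] ≅ E₀[n]` for some integer `n ≥ n₀`.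
(2) There is a set `E ⊆ ℂ` of dimension zero such that this holds for all `z ∈ ℂ` outside `E` and all number fields `K ⊂ ℂ`.
(3) Let `N ≥ 13` and `σ > 0`. For all `z ∈ M` outside a set of dimension at most `(1 + 1 / N) / σ` and all `j₀ ∈ K` only
finitely many `j ∈ K` with `dist (φ j) z ≤ H(j) ^ (-σ)` are invariants of curves which, for some prime `p ≥ N`, have the same
`p`-division field as some curve of invariant `j₀`.
(4) For almost every real `z` this holds for all number fields `K ⊂ ℝ`, all `N ≥ 13` and all `σ > 1 + 1 / N`. -/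
theorem result :
    (∀ (K : Type) [Field K] [NumberField K] (M : Type) [MetricSpace M] (φ : K → M),
      ∃ E : Set M, dimH E = 0 ∧ ∀ z : M, z ∉ E → ∀ σ : ℝ, 0 < σ → ∃ n₀ : ℕ,
        ∀ A₀ B₀ : 𝓞 K, 4 * A₀ ^ 3 + 27 * B₀ ^ 2 ≠ 0 → ∃ F : Finset (K × K),
          ∀ A B : K, 4 * A ^ 3 + 27 * B ^ 2 ≠ 0 →
            dist (φ (jInvariant A B)) z ≤ (Height.mulHeight₁ (jInvariant A B)) ^ (-σ) →
            ∀ n : ℕ, n₀ ≤ n → Congruent n A B (A₀ : K) (B₀ : K) → ∃ e ∈ F, Isomorphic e.1 e.2 A B) ∧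
    (∃ E : Set ℂ, dimH E = 0 ∧ ∀ z : ℂ, z ∉ E → ∀ (K : IntermediateField ℚ ℂ) [NumberField K], ∀ σ : ℝ, 0 < σ →
      ∃ n₀ : ℕ, ∀ A₀ B₀ : 𝓞 K, 4 * A₀ ^ 3 + 27 * B₀ ^ 2 ≠ 0 → ∃ F : Finset (K × K),
        ∀ A B : K, 4 * A ^ 3 + 27 * B ^ 2 ≠ 0 →
          ‖((jInvariant A B : K) : ℂ) - z‖ ≤ (Height.mulHeight₁ (jInvariant A B)) ^ (-σ) →
          ∀ n : ℕ, n₀ ≤ n → Congruent n A B (A₀ : K) (B₀ : K) → ∃ e ∈ F, Isomorphic e.1 e.2 A B) ∧
    (∀ N : ℕ, 13 ≤ N → ∀ (K : Type) [Field K] [NumberField K] (M : Type) [MetricSpace M] (φ : K → M) (σ : ℝ), 0 < σ →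
      ∃ E : Set M, dimH E ≤ ENNReal.ofReal ((1 + 1 / (N : ℝ)) / σ) ∧ ∀ z : M, z ∉ E → ∀ j₀ : K,
        {j : K | Related N j₀ j ∧ dist (φ j) z ≤ (Height.mulHeight₁ j) ^ (-σ)}.Finite) ∧
    (∀ᵐ z : ℝ, ∀ (K : IntermediateField ℚ ℝ) [NumberField K] (N : ℕ) (σ : ℝ), 13 ≤ N → 1 + 1 / (N : ℝ) < σ →
      ∀ j₀ : K, {j : K | Related N j₀ j ∧ |(j : ℝ) - z| ≤ (Height.mulHeight₁ j) ^ (-σ)}.Finite) := by
  refine ⟨fun K _ _ M _ φ => part_one K M φ, ?_, fun N hN K _ _ M _ φ σ hσ => part_three N hN K M φ σ hσ, part_four⟩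
  obtain ⟨E, hE, h⟩ := part_two
  refine ⟨E, hE, fun z hz K hK σ hσ => ?_⟩
  obtain ⟨n₀, h1⟩ := h z hz K σ hσ
  refine ⟨n₀, fun A₀ B₀ h0 => ?_⟩
  obtain ⟨F, hF⟩ := h1 A₀ B₀ h0
  refine ⟨F, fun A B hAB hd n hn hcon => hF A B hAB ?_ n hn hcon⟩
  rw [dist_eq_norm]
  exact hd

end Pool.Agent.Results.MP_4a0cc8_nt.NearEveryPoint
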