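import Pool.Agent.Results.MP_4a0cc8_nt.PartnerWindows
import Pool.Agent.V11001.KM.Near
import Pool.Agent.V11001.KM.Zero

/-!
# Curves with invariants of height near the powers of a real number are not congruent to a given curve

Let `K` be a number field, `H` the height on `K` and `ν k / log k → ∞`, for example `ν k = k` or `ν k = k !`. There is a set
`E` of real numbers of Hausdorff dimension zero such that for each `x > 1` outside `E` and all `θ < 1` there is `n₀` with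
the following property: for EVERY elliptic curve `E₀ : y² = x³ + A₀x + B₀` over `K`, `A₀`, `B₀` integral, the elliptic
curves over `K` which are congruent to `E₀` modulo some `n ≥ n₀` and whose invariant `j` satisfies
`|H(j) - x ^ (ν k)| ≤ x ^ (θ ν k)` for some `k` have only finitely many invariants.
-/

set_option autoImplicit false

open Filter Topology NumberField
open scoped ENNReal

namespace Pool.Agent.Results.MP_4a0cc8_nt.PartnersNearPowers

open Pool.Agent.V11001.KM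
open FewPartnersAllLevels (Congruent jInvariant)
open PartnerWindows (Partners partners_count)

/-- **Theorem.** Let `ν k / log k → ∞`, `U` a countable set of real numbers and `K` a number field. There is a set `E` of
real numbers of Hausdorff dimension zero such that for each `x > 1` outside `E` and each `θ < 1` there is `n₀` with the
following property: for each positive `β` in `U` and EVERY elliptic curve `E₀ : y² = x³ + A₀x + B₀` over `K`, `A₀`, `B₀`
integral, there is `H₀` such that no elliptic curve `y² = x³ + Ax + B` over `K` with `H(j) ≥ H₀`, `H(j)` the height of its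
invariant, and `|H(j) - β x ^ (ν k)| ≤ x ^ (θ ν k)` for some `k` is congruent to `E₀` modulo some `n ≥ n₀`. -/
theorem result : ∀ ν : ℕ → ℝ, Fast ν → ∀ U : Set ℝ, U.Countable → ∀ (K : Type) [Field K] [NumberField K],
    ∃ E : Set ℝ, dimH E = 0 ∧ ∀ x : ℝ, 1 < x → x ∉ E → ∀ θ : ℝ, θ < 1 → ∃ n₀ : ℕ, ∀ β ∈ U, 0 < β →
      ∀ A₀ B₀ : 𝓞 K, 4 * A₀ ^ 3 + 27 * B₀ ^ 2 ≠ 0 → ∃ H₀ : ℝ, ∀ A B : K, 4 * A ^ 3 + 27 * B ^ 2 ≠ 0 →
        H₀ ≤ Height.mulHeight₁ (jInvariant A B) → Near ν θ β x (Height.mulHeight₁ (jInvariant A B)) →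
          ∀ n : ℕ, n₀ ≤ n → ¬ Congruent n A B (A₀ : K) (B₀ : K) := by
  classical
  intro ν hν U hU K _ _
  have hK : Countable K := (Module.finBasis ℚ K).equivFun.injective.countable
  have hcnt : Countable (𝓞 K) := (RingOfIntegers.coe_injective (K := K)).countable
  have hc : ∀ j : ℕ, ∃ n₀ : ℕ, ∀ A₀ B₀ : 𝓞 K,
      4 * A₀ ^ 3 + 27 * B₀ ^ 2 ≠ 0 → ∃ C : ℝ, 0 ≤ C ∧ ∀ X : ℝ, 1 ≤ X →
        {x : K | x ∈ Partners n₀ (A₀ : K) (B₀ : K) ∧ Height.mulHeight₁ x ≤ X}.Finite ∧
        ({x : K | x ∈ Partners n₀ (A₀ : K) (B₀ : K) ∧ Height.mulHeight₁ x ≤ X}.ncard : ℝ) ≤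
          C * X ^ (1 / ((j : ℝ) + 1)) := by
    intro j
    obtain ⟨n₀, h⟩ := partners_count (Module.finrank ℚ K) (1 / ((j : ℝ) + 1)) (by positivity)
    exact ⟨n₀, h K rfl⟩
  choose n₀ hcount using hc
  obtain ⟨E, h1, h2⟩ := zero_family (Q := Unit) (J := {e : 𝓞 K × 𝓞 K // 4 * e.1 ^ 3 + 27 * e.2 ^ 2 ≠ 0})
    (fun x : K => Height.mulHeight₁ x) hν U hU
    (fun _ j e => Partners (n₀ j) (e.1.1 : K) (e.1.2 : K)) (fun _ j e => by
      obtain ⟨C, -, h⟩ := hcount j e.1.1 e.1.2 e.2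
      exact ⟨C, h⟩)
  refine ⟨E, h1, fun x hx hxE θ hθ => ?_⟩
  obtain ⟨j, hj⟩ := h2 x hx hxE θ hθ ()
  refine ⟨n₀ j, fun β hβ hβ0 A₀ B₀ h0 => ?_⟩
  obtain ⟨H₀, hH⟩ := bound_of_finite (fun x : K => Height.mulHeight₁ x) (hj β hβ hβ0 ⟨(A₀, B₀), h0⟩)
  refine ⟨H₀, fun A B hAB hle hnear n hn hcon => ?_⟩
  exact absurd (hH (jInvariant A B) ⟨⟨A, B, hAB, rfl, n, hn, hcon⟩, hnear⟩) (not_lt.2 hle)

end Pool.Agent.Results.MP_4a0cc8_nt.PartnersNearPowers
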